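import Pool.Agent.V8H26.XA.End

/-!
# The exact law of the 2-Selmer groups of the quadratic twists over `k(t)` of a curve with full
# 2-torsion, and the exact proportion with finite Mordell-Weil group and trivial 2-primary part of the
# Tate-Shafarevich group

Let `k` be a finite field of characteristic different from 2 in which `-1` is a square, and let `a`,
`b` be coprime polynomials over `k` such that `a`, `b`, `a - b` have the same degree `N` and none of
`a b`, `a (a - b)`, `b (a - b)` is a constant multiple of a square. Let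

`E_D : y ^ 2 = x (x - a D) (x - b D)`

be the quadratic twists of `E = E_1`, an elliptic curve over `K = k(t)` with all its points of order
two rational. For a monic squarefree `D`, the condition in `NonSplitTwists` says that `D` is prime to
`a b (a - b)` and `E_D` has non-split multiplicative reduction at all the places `Q ≠ ∞` at which `E` has
bad reduction: the reduction is `y ^ 2 = x ^ 2 (x - b D)` for `Q ∣ a`, `y ^ 2 = x ^ 2 (x - a D)` for
`Q ∣ b`, and `y ^ 2 = x (x - a D) ^ 2` for `Q ∣ a - b`.

Let `Sel E_D` be the 2-Selmer group: the pairs of classes `(u, w)` of `K* / K* ^ 2` such that, at every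
place `v` of `K`, `(u, w)` is the pair of classes of `(x(P), x(P) - a D)` for a point `P` of `E_D` over the
completion `K_v`.

Theorem. As `n → ∞` with `n + N` odd, the monic squarefree `D` of degree `n` in this class are a
positive proportion of the monic polynomials of degree `n`; the order of `Sel E_D` is `2 ^ (2 d + 2)`
for some `d ≥ 0`, and the proportion of the `D` with a given `d` converges to

`α d = ∏_{i ≥ 0} (1 - 2 ^ (-(2 i + 1))) * ∏_{j = 1}^{2 d} 2 / (2 ^ j - 1)`,

that is `0.4194..`, `0.5592..`, `0.0213..`, ...; the sum of the `α d` is `1`. The order of `Sel E_D` is `4` if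
and only if the group `E_D(K)` is finite and the 2-primary part of the Tate-Shafarevich group of `E_D`
over `K` is zero; so this happens for the proportion `0.4194..` of the `D`.

The class of twists, the symbols, the description of the classes with trivial kernel and the sieve are
from the project `Pool/Agent/Y164/PS` (result `PositiveProportionOfTwists`, lower bound `1 / 3`), the
descent from `Pool/Agent/TH115/GD`.
-/

set_option autoImplicit false
set_option linter.all false

namespace Pool.Agent.Results.MP_48b749_nt.ExactSelmerLawOfTwists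

open Polynomial Filter Topology Pool.Agent.TH115.GD
open scoped Classical

/-- The polynomial `f` is not a square modulo `Q` (in particular it is not divisible by `Q`). -/
def NonSquareMod {k : Type} [Field k] (Q f : k[X]) : Prop := ∀ h : k[X], ¬ Q ∣ h ^ 2 - f

/-- The polynomial `f` is not a constant multiple of a square. -/
def NotConstSquare {k : Type} [Field k] (f : k[X]) : Prop := ∀ (c : k) (h : k[X]), f ≠ C c * h ^ 2

/-- The monic squarefree polynomials `D` of degree `n` for which `b D` is not a square modulo the prime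
divisors of `a` and `a D` is not a square modulo the prime divisors of `b (a - b)`. -/
def NonSplitTwists {k : Type} [Field k] (a b : k[X]) (n : ℕ) : Set k[X] :=
  {D | D.Monic ∧ D.natDegree = n ∧ Squarefree D ∧
    (∀ Q : k[X], Irreducible Q → Q ∣ a → NonSquareMod Q (b * D)) ∧
    (∀ Q : k[X], Irreducible Q → Q ∣ b * (a - b) → NonSquareMod Q (a * D))}

/-- The curve `E_D : y ^ 2 = x (x - a D) (x - b D)` over `K = k(t)`. -/
noncomputable def twist {k : Type} [Field k] (K : Type) [Field K] [Algebra k[X] K]
    (a b D : k[X]) : WeierstrassCurve K :=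
  crv (algebraMap k[X] K (a * D)) (algebraMap k[X] K (b * D))

/-- The group `K* / K* ^ 2`. -/
abbrev ModSquares (K : Type) [Field K] : Type := Kˣ ⧸ (powMonoidHom 2 : Kˣ →* Kˣ).range

/-- `(u, w)` is the pair of classes modulo squares of `(x(P), x(P) - α)` for a point `P` over the
extension `L` of `K` of the curve `y ^ 2 = x (x - α) (x - β)`; `d0` and `d1` are representatives of
these classes (`1` at infinity, `α β` for `x(P)` at the point `(0, 0)`, `α (α - β)` for `x(P) - α` at the
point `(α, 0)`). -/
def OfPoint {K : Type} [Field K] (L : Type) [Field L] [Algebra K L] (α β : K) (u w : K) : Prop :=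
  ∃ (P : Pt (crv α β) L) (c₀ c₁ : L), c₀ ≠ 0 ∧ c₁ ≠ 0 ∧
    algebraMap K L u = c₀ ^ 2 * d0 (algebraMap K L α) (algebraMap K L β) P ∧
    algebraMap K L w = c₁ ^ 2 * d1 (algebraMap K L α) (algebraMap K L β) P

/-- The 2-Selmer group of the curve `y ^ 2 = x (x - α) (x - β)` over `K = k(t)`: the pairs of classes
which come from a point over the completion of `K` at every place of `K`, the places being the
maximal ideals of `k[t]` and the place `t = ∞`. -/
def TwoSelmer (k : Type) {K : Type} [Field k] [Field K] [Algebra k[X] K] [IsFractionRing k[X] K]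
    (α β : K) : Set (ModSquares K × ModSquares K) :=
  {c | ∃ u w : Kˣ, c = ((u : ModSquares K), (w : ModSquares K)) ∧
    (∀ v : IsDedekindDomain.HeightOneSpectrum k[X], OfPoint (Comp k[X] K v) α β u w) ∧
    OfPoint (CompInf k K) α β u w}

/-- The order of the 2-Selmer group of `E_D`. -/
noncomputable def selmerOrder (k : Type) [Field k] (K : Type) [Field K] [Algebra k[X] K]
    [IsFractionRing k[X] K] (a b D : k[X]) : ℕ :=
  (TwoSelmer k (algebraMap k[X] K (a * D)) (algebraMap k[X] K (b * D))).ncard

/-- The limit law. -/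
noncomputable def α (d : ℕ) : ℝ :=
  (∏' i : ℕ, (1 - (1 / 2 : ℝ) ^ (2 * i + 1))) *
    ∏ j ∈ Finset.range (2 * d), 2 / ((2 : ℝ) ^ (j + 1) - 1)

theorem result (k : Type) [Field k] [Finite k] (h2 : (2 : k) ≠ 0) (hi : IsSquare (-1 : k))
    (K : Type) [Field K] [Algebra k[X] K] [IsFractionRing k[X] K] (a b : k[X]) (N : ℕ)
    (hco : IsCoprime a b) (ha : a.natDegree = N) (hb : b.natDegree = N)
    (hab : (a - b).natDegree = N) (h₁ : NotConstSquare (a * b))
    (h₂ : NotConstSquare (a * (a - b))) (h₃ : NotConstSquare (b * (a - b))) :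
    (∃ c : ℝ, 0 < c ∧ ∀ᶠ n : ℕ in atTop, Odd (n + N) →
      c * (Nat.card k : ℝ) ^ n ≤ ((NonSplitTwists a b n).ncard : ℝ)) ∧
    (∀ d : ℕ, Tendsto (fun n : ℕ =>
        (({D ∈ NonSplitTwists a b n | selmerOrder k K a b D = 2 ^ (2 * d + 2)}).ncard : ℝ) /
          ((NonSplitTwists a b n).ncard : ℝ))
      (atTop ⊓ 𝓟 {n | Odd (n + N)}) (𝓝 (α d))) ∧
    Tendsto (fun n : ℕ => (({D ∈ NonSplitTwists a b n |
          Finite (Pt (twist K a b D) K) ∧ ShaTwo k (twist K a b D)}).ncard : ℝ) /
        ((NonSplitTwists a b n).ncard : ℝ))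
      (atTop ⊓ 𝓟 {n | Odd (n + N)}) (𝓝 (∏' i : ℕ, (1 - (1 / 2 : ℝ) ^ (2 * i + 1)))) ∧
    (0.4194 < α 0 ∧ α 0 < 0.4195 ∧ HasSum α 1) ∧
    ∀ n : ℕ, 1 ≤ n → Odd (n + N) → ∀ D ∈ NonSplitTwists a b n,
      (∃ d : ℕ, selmerOrder k K a b D = 2 ^ (2 * d + 2)) ∧
      (selmerOrder k K a b D = 4 ↔
        Finite (Pt (twist K a b D) K) ∧ ShaTwo k (twist K a b D)) := by
  obtain ⟨m1, m2, m3⟩ := Pool.Agent.V8H26.XA.final h2 hi K a b N hco ha hb hab h₁ h₂ h₃
  have e1 : ∀ d, Pool.Agent.V8H26.XL.al d = α d := Pool.Agent.V8H26.XL.al_prod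
  have e2 : Pool.Agent.V8H26.XL.al = α := funext e1
  have e3 : α 0 = Pool.Agent.V8H26.XL.cc := by rw [← e1, Pool.Agent.V8H26.XL.al_zero]
  refine ⟨m1, fun d => ?_, ?_, ⟨?_, ?_, ?_⟩, m3⟩
  · rw [← e1]
    exact m2 d
  · have h0 := m2 0
    rw [Pool.Agent.V8H26.XL.al_zero] at h0
    refine h0.congr' ?_
    rw [EventuallyEq, eventually_inf_principal]
    filter_upwards [eventually_ge_atTop 1] with n hn ho
    have e4 : {D ∈ NonSplitTwists a b n | selmerOrder k K a b D = 2 ^ (2 * 0 + 2)} =
        {D ∈ NonSplitTwists a b n | Finite (Pt (twist K a b D) K) ∧ ShaTwo k (twist K a b D)} := by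
      ext D
      constructor
      · rintro ⟨h1, h3⟩
        exact ⟨h1, (m3 n hn ho D h1).2.1 h3⟩
      · rintro ⟨h1, h3⟩
        exact ⟨h1, (m3 n hn ho D h1).2.2 h3⟩
    exact congrArg (fun s : Set k[X] => (s.ncard : ℝ) / ((NonSplitTwists a b n).ncard : ℝ)) e4
  · rw [e3]
    exact Pool.Agent.V8H26.XL.cc_num.1
  · rw [e3]
    exact Pool.Agent.V8H26.XL.cc_num.2
  · rw [← e2]
    exact Pool.Agent.V8H26.XL.al_sum

end Pool.Agent.Results.MP_48b749_nt.ExactSelmerLawOfTwists
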