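import Pool.Agent.V8H26.TC.Rf
import Pool.Agent.N874.HP.A8

/-!
# Quadratic twists by primes of the elliptic curves over `k(t)` with an odd `L`-value

Let `k` be a finite field with `q` elements, `q` prime to `6`. For an elliptic curve
`E : y ^ 2 = x ^ 3 + a x + b` over the function field `K` of any curve over `k` we compute how the order
at `T = 1` of `L(T, E)` modulo two changes under a quadratic twist. For `K = k(t)` and `E` without points
of order two over `kbar(t)` the trace `a_P` is odd for one third of the primes `P` of `k[t]` of a given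
large degree (two thirds, for even degree, if the discriminant is a constant times a square); for all
the products `D` of even degree of such primes the order at `1 / q` of `L(T, E_D)` is at most the order
at `1` of `L(T, E)` modulo two. So if the integer `L(1, E)` is odd then `L(1 / q, E_D)` does not vanish
and the rank conjecture holds for all these twists `E_D`; at least `κ q ^ n / n ^ (2 / 3)` of the
squarefree polynomials `D` of even degree `n` are of this kind.
-/

set_option autoImplicit false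
set_option linter.all false
set_option maxHeartbeats 4000000

open Polynomial Pool.Agent.W343.BSD Pool.Agent.V8H26.TC
open Pool.Agent.W313.Gr hiding muTwo

namespace Pool.Agent.Results.MP_48b749_nt.PrimeTwistsOddValue

/-- How the orders modulo two change under the twist `E_u : y ^ 2 = x ^ 3 + u ^ 2 a x + u ^ 3 b` of
`E : y ^ 2 = x ^ 3 + a x + b`, for all `u`. If `L(T, E)` is the polynomial `P` and `s`, `s_u` are the sums
of the multiplicities `oTwo` of `E`, `E_u` over the places with odd valuation of `u` then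
`muTwo Q + s_u = muTwo P + s` if `L(T, E_u)` is the polynomial `Q`, and `m + s_u ≤ muTwo P + s` if
`L(T, E_u) = (1 - q T) ^ m G(T)` with `G` in `ℤ[T]`. -/
def TwistFormula (k : Type) {K : Type} [Field k] [Field K] [Algebra k K] (a b u : K) : Prop :=
  ∀ P : ℤ[X], S.Lfun k a b = (P : PowerSeries ℤ) →
    (∀ Q : ℤ[X], S.Lfun k (u ^ 2 * a) (u ^ 3 * b) = (Q : PowerSeries ℤ) →
      muTwo Q + ∑ᶠ (v : FF.Place k K) (_ : Odd (v.ord u)), oTwo v (u ^ 2 * a) (u ^ 3 * b) =
        muTwo P + ∑ᶠ (v : FF.Place k K) (_ : Odd (v.ord u)), oTwo v a b) ∧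
    ∀ m : ℕ, S.VanishesTo k (u ^ 2 * a) (u ^ 3 * b) m →
      m + ∑ᶠ (v : FF.Place k K) (_ : Odd (v.ord u)), oTwo v (u ^ 2 * a) (u ^ 3 * b) ≤
        muTwo P + ∑ᶠ (v : FF.Place k K) (_ : Odd (v.ord u)), oTwo v a b

/-- The order of vanishing of `L(T, E)` at `T = 1 / |k|` is zero, for `E : y ^ 2 = x ^ 3 + a x + b`; and
if the rank is at most this order, it is zero. -/
def OrderAndRankZero (k : Type) {K : Type} [Field k] [Field K] [Algebra k K] (a b : K) : Prop :=
  (∀ m : ℕ, S.VanishesTo k a b m → m = 0) ∧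
    ∀ r : ℕ, HasOrder k a b r → r = 0 ∧ (rank a b ≤ r → rank a b = 0)

/-- The cubic `x ^ 3 + a x + b` has no root modulo the irreducible polynomial `P`: then
`y ^ 2 = x ^ 3 + a x + b` has good reduction at `P` and the trace `a_P` is odd. -/
def OddPrime {k : Type} [Field k] (a b P : k[X]) : Prop :=
  Irreducible P ∧ ∀ r : k[X], ¬ P ∣ r ^ 3 + a * r + b

/-- The polynomial is a constant times a square. -/
def IsConstSquare {k : Type} [Field k] (f : k[X]) : Prop := ∃ (c : k) (h : k[X]), f = C c * h ^ 2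

/-- Let `L(T, E)` be the polynomial `P` for `E : y ^ 2 = x ^ 3 + a x + b` over `k(t)`. If `L(T, E_D)` is
a polynomial it has the same multiplicity of the root `1` modulo two, `muTwo P`. If
`L(T, E_D) = (1 - q T) ^ m G(T)` with `G` in `ℤ[T]` then `m ≤ muTwo P`. If `L(1, E)` is odd then
`OrderAndRankZero` holds for `E_D`. -/
def TwistOrders {k : Type} [Field k] (a b D : k[X]) : Prop :=
  ∀ P : ℤ[X], S.Lfun k (algebraMap k[X] (RatFunc k) a) (algebraMap k[X] (RatFunc k) b) =
      (P : PowerSeries ℤ) →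
    (∀ Q : ℤ[X], S.Lfun k (algebraMap k[X] (RatFunc k) (D ^ 2 * a))
      (algebraMap k[X] (RatFunc k) (D ^ 3 * b)) = (Q : PowerSeries ℤ) → muTwo Q = muTwo P) ∧
    (∀ m : ℕ, S.VanishesTo k (algebraMap k[X] (RatFunc k) (D ^ 2 * a))
      (algebraMap k[X] (RatFunc k) (D ^ 3 * b)) m → m ≤ muTwo P) ∧
    (Odd (P.eval 1) → OrderAndRankZero k (algebraMap k[X] (RatFunc k) (D ^ 2 * a))
      (algebraMap k[X] (RatFunc k) (D ^ 3 * b)))

section proof

open Pool.Agent Pool.Agent.W309.RF

theorem zero_of {k K : Type} [Field k] [Finite k] [Field K] [Algebra k K] [FF.IsFF k K] {a b : K}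
    (h : ∀ m : ℕ, S.VanishesTo k a b m → m = 0) : OrderAndRankZero k a b := by
  refine ⟨h, fun r hr => ?_⟩
  have h1 := TH180.R4.concl4 (k := k) (a := a) (b := b) (R := 0) (by simp)
    (fun m hm => (h m hm).le) r hr
  have h2 : r = 0 := Nat.le_zero.1 h1.1
  refine ⟨h2, fun hle => ?_⟩
  have := (h1.2 hle).2
  exact_mod_cast this

theorem mu_zero {P : ℤ[X]} (h : Odd (P.eval 1)) : muTwo P = 0 := by
  unfold muTwo
  apply rootMultiplicity_eq_zero
  rw [IsRoot.def]
  have e : eval 1 (P.map (Int.castRingHom (ZMod 2))) = ((P.eval 1 : ℤ) : ZMod 2) := by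
    have := eval_map_apply (Int.castRingHom (ZMod 2)) (p := P) (x := (1 : ℤ))
    rw [map_one, eq_intCast] at this
    exact this
  rw [e, two_parity, if_neg (Int.not_even_iff_odd.2 h)]
  exact one_ne_zero

theorem formula {k K : Type} [Field k] [Finite k] [Field K] [Algebra k K] [FF.IsFF k K]
    (h6 : (6 : k) ≠ 0) {a b u : K} (hΔ : 4 * a ^ 3 + 27 * b ^ 2 ≠ 0) (hu : u ≠ 0) :
    TwistFormula k a b u := by
  classical
  set B := (odd_finite (k := k) u).toFinset with hBdef
  have hB : ∀ v, v ∈ B ↔ Odd (v.ord u) := fun v => by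
    rw [hBdef, Set.Finite.mem_toFinset]
    rfl
  have hsum : ∀ g : FF.Place k K → ℕ, ∑ᶠ (v : FF.Place k K) (_ : Odd (v.ord u)), g v =
      ∑ v ∈ B, g v := by
    intro g
    have : ∀ v, (Odd (v.ord u)) = (v ∈ (B : Set (FF.Place k K))) := fun v => by
      rw [Finset.mem_coe, hB]
    simp only [this]
    exact finsum_mem_coe_finset g B
  intro P hP
  refine ⟨fun Q hQ => ?_, fun m hm => ?_⟩
  · rw [hsum, hsum]
    have := twist_orders h6 hΔ hu B hB hP (m := 0) (Q := Q) (by rw [pow_zero, one_mul]; exact hQ)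
    rwa [zero_add] at this
  · rw [hsum, hsum]
    obtain ⟨G, hG⟩ := hm
    have := twist_orders h6 hΔ hu B hB hP hG
    omega

theorem orders {k : Type} [Field k] [Finite k] (h6 : (6 : k) ≠ 0) {a b D : k[X]}
    (hΔ : 4 * a ^ 3 + 27 * b ^ 2 ≠ 0) (hD : D ≠ 0) (hev : Even D.natDegree)
    (h : ∀ P : k[X], Irreducible P → P ∣ D → OddPrime a b P) : TwistOrders a b D := by
  intro P hP
  have e1 : algebraMap k[X] (RatFunc k) (D ^ 2 * a) = A D ^ 2 * A a := by rw [map_mul, map_pow]
  have e2 : algebraMap k[X] (RatFunc k) (D ^ 3 * b) = A D ^ 3 * A b := by rw [map_mul, map_pow]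
  rw [e1, e2]
  have key : ∀ (m : ℕ) (Q : ℤ[X]), S.Lfun k (A D ^ 2 * A a) (A D ^ 3 * A b) =
      (((1 - C (Nat.card k : ℤ) * X) ^ m * Q : ℤ[X]) : PowerSeries ℤ) → m + muTwo Q = muTwo P :=
    fun m Q hQ => rat_twist h6 hΔ hD hev (fun R hR hRD => (h R hR hRD).2) hP hQ
  have hV : ∀ m : ℕ, S.VanishesTo k (A D ^ 2 * A a) (A D ^ 3 * A b) m → m ≤ muTwo P := by
    rintro m ⟨G, hG⟩
    have := key m G hG
    omega
  refine ⟨fun Q hQ => ?_, hV, fun hodd => ?_⟩
  · have := key 0 Q (by rw [pow_zero, one_mul]; exact hQ)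
    rwa [zero_add] at this
  · refine zero_of fun m hm => ?_
    have := hV m hm
    rw [mu_zero hodd] at this
    omega

theorem pr_coe {k : Type} [Field k] [Fintype k] (a b : k[X]) (n : ℕ) :
    {P : k[X] | P.Monic ∧ P.natDegree = n ∧ OddPrime a b P} = (Pr k (NR a b) n : Set k[X]) := by
  ext P
  rw [Set.mem_setOf_eq, Finset.mem_coe, mem_Pr]
  unfold OddPrime NR
  tauto

theorem sf_coe {k : Type} [Field k] [Fintype k] (a b : k[X]) (n : ℕ) :
    {D : k[X] | D.Monic ∧ Squarefree D ∧ D.natDegree = n ∧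
      ∀ P : k[X], Irreducible P → P ∣ D → OddPrime a b P} = (Sf k (NR a b) n : Set k[X]) := by
  classical
  ext D
  rw [Set.mem_setOf_eq, Finset.mem_coe, mem_Sf]
  constructor
  · rintro ⟨h1, h2, h3, h4⟩
    exact ⟨h1, h3, h2, fun P _ hP hd => (h4 P hP hd).2⟩
  · rintro ⟨h1, h2, h3, h4⟩
    refine ⟨h1, h3, h2, fun P hP hd => ⟨hP, fun r hr => ?_⟩⟩
    have hass : Associated P (normalize P) := (normalize_associated P).symm
    have h5 := h4 (normalize P) (monic_normalize hP.ne_zero) (hass.irreducible hP)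
      (hass.symm.dvd.trans hd)
    exact h5 r (hass.symm.dvd.trans hr)

end proof

open Classical in
/-- **Prime twists.** Let `k` be a finite field with `q` elements, `q` prime to `6`.

1. For every function field `K` of a curve over `k`, `E : y ^ 2 = x ^ 3 + a x + b` over `K` and
`u ≠ 0` in `K` the orders modulo two of `E` and of the quadratic twist `E_u` are related by
`TwistFormula`.

2. Let `a`, `b` be polynomials such that `y ^ 2 = x ^ 3 + a x + b` is an elliptic curve `E` over `k(t)`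
without points of order two over `kbar(t)`. The number of monic irreducible `P` of degree `n` with
`OddPrime a b P` (no points of order two modulo `P`) is `q ^ n / (3 n) + O(q ^ (n / 2) / n)`, or, if the
discriminant is a constant times a square and `n` is even, `2 q ^ n / (3 n) + O(q ^ (n / 2) / n)`. For
every `D` of even degree whose prime factors are all of this kind `TwistOrders` holds: the order of
vanishing at `1 / q` of `L(T, E_D)` is at most the order at `1` of `L(T, E)` modulo two; if `L(1, E)` is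
odd then `L(1 / q, E_D)` does not vanish and the rank conjecture holds for `E_D`. For a constant
`κ > 0` and all large even `n` there are at least `κ q ^ n / n ^ (2 / 3)` monic squarefree such `D`
of degree `n`. -/
theorem result (k : Type) [Field k] [Finite k] (h6 : (6 : k) ≠ 0) :
    (∀ (K : Type) [Field K] [Algebra k K], IsCurveField k K → ∀ a b u : K,
      4 * a ^ 3 + 27 * b ^ 2 ≠ 0 → u ≠ 0 → TwistFormula k a b u) ∧
    ∀ a b : k[X], 4 * a ^ 3 + 27 * b ^ 2 ≠ 0 →
      (∀ r : (AlgebraicClosure k)[X], r ^ 3 + a.map (algebraMap k (AlgebraicClosure k)) * r +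
        b.map (algebraMap k (AlgebraicClosure k)) ≠ 0) →
      (∃ C : ℝ, ∀ n : ℕ, n ≠ 0 → (IsConstSquare (-(4 * a ^ 3 + 27 * b ^ 2)) → Even n) →
        |3 * (n * ({P : k[X] | P.Monic ∧ P.natDegree = n ∧ OddPrime a b P}.ncard : ℝ)) -
          (if IsConstSquare (-(4 * a ^ 3 + 27 * b ^ 2)) then 2 else 1) * (Nat.card k : ℝ) ^ n| ≤
            C * Real.sqrt (Nat.card k) ^ n) ∧
      (∀ D : k[X], D ≠ 0 → Even D.natDegree →
        (∀ P : k[X], Irreducible P → P ∣ D → OddPrime a b P) → TwistOrders a b D) ∧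
      ∃ κ : ℝ, 0 < κ ∧ ∃ n0 : ℕ, ∀ n : ℕ, n0 ≤ n → Even n →
        κ * ((Nat.card k : ℝ) ^ n * (n : ℝ) ^ (-(2 / 3) : ℝ)) ≤
          ({D : k[X] | D.Monic ∧ Squarefree D ∧ D.natDegree = n ∧
            ∀ P : k[X], Irreducible P → P ∣ D → OddPrime a b P}.ncard : ℝ) := by
  refine ⟨fun K _ _ hK a b u hΔ hu => ?_, fun a b hΔ hno => ?_⟩
  · have hFF : FF.IsFF k K := ⟨hK.essFiniteType, hK.trdeg_eq_one⟩
    exact formula h6 hΔ hu
  letI : Fintype k := Fintype.ofFinite k
  have hδ : dsc a b ≠ 0 := by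
    unfold dsc
    exact neg_ne_zero.2 hΔ
  obtain ⟨C, hC⟩ := density h6 hno hδ
  have hcs : IsConstSquare (-(4 * a ^ 3 + 27 * b ^ 2)) ↔ ConstSq (dsc a b) := Iff.rfl
  refine ⟨⟨C, fun n hn hev => ?_⟩, fun D hD hev h => orders h6 hΔ hD hev h, ?_⟩
  · rw [pr_coe, Set.ncard_coe_finset, Nat.card_eq_fintype_card]
    exact hC n hn hev
  · by_cases h : ConstSq (dsc a b)
    · obtain ⟨κ, hκ, n0, hn0⟩ := sqf_count (NR a b) (s := 2) (by norm_num) (θ := 2 / 3)
        (K := C / 3) (by norm_num) (by norm_num) (fun d hd hsd => by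
          have h1 := abs_le.1 (hC d hd fun _ => even_iff_two_dvd.2 hsd)
          rw [if_pos h] at h1
          linarith [h1.1])
      refine ⟨κ, hκ, n0, fun n hn hev => ?_⟩
      rw [sf_coe, Set.ncard_coe_finset, Nat.card_eq_fintype_card]
      have h1 := hn0 n hn (even_iff_two_dvd.1 hev)
      have e : (2 / 3 / (2 : ℕ) - 1 : ℝ) = -(2 / 3) := by norm_num
      rwa [e] at h1
    · obtain ⟨κ, hκ, n0, hn0⟩ := sqf_count (NR a b) (s := 1) (by norm_num) (θ := 1 / 3)
        (K := C / 3) (by norm_num) (by norm_num) (fun d hd hsd => by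
          have h1 := abs_le.1 (hC d hd fun h' => absurd h' h)
          rw [if_neg h] at h1
          linarith [h1.1])
      refine ⟨κ, hκ, n0, fun n hn hev => ?_⟩
      rw [sf_coe, Set.ncard_coe_finset, Nat.card_eq_fintype_card]
      have h1 := hn0 n hn (one_dvd n)
      have e : (1 / 3 / (1 : ℕ) - 1 : ℝ) = -(2 / 3) := by norm_num
      rwa [e] at h1

end Pool.Agent.Results.MP_48b749_nt.PrimeTwistsOddValue
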