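import Pool.Agent.V8H26.YB.All

/-!
# The law of the 2-Selmer groups of all the quadratic twists over `k(t)` of a curve with full 2-torsion,
# and the proportion with finite Mordell-Weil group and trivial 2-primary part of the Tate-Shafarevich
# group

Let `k` be a finite field of characteristic different from 2 in which `-1` is a square, and let `a`,
`b` be coprime polynomials over `k` such that `a`, `b`, `a - b` have the same degree and none of
`a b`, `a (a - b)`, `b (a - b)` is a constant multiple of a square. Let

`E_D : y ^ 2 = x (x - a D) (x - b D)`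

be the quadratic twists of `E = E_1`, an elliptic curve over `K = k(t)` with all its points of order
two rational. The bad places of `E` other than `∞` are the monic irreducible divisors `Q` of
`F = a b (a - b)`. For `D` prime to `F` the reduction of `E_D` at `Q` is multiplicative, namely
`y ^ 2 = x ^ 2 (x - b D)` for `Q ∣ a`, `y ^ 2 = x ^ 2 (x - a D)` for `Q ∣ b`, and
`y ^ 2 = x (x - a D) ^ 2` for `Q ∣ a - b`; it is non-split when `b D`, respectively `a D`, is not a square
modulo `Q` (recall that `-1` is a square).

The family consists of all the squarefree polynomials `D` prime to `F`, monic or not, of even and of odd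
degree, if all the multiplicities in the factorization of `F` are odd (for example if `F` is
squarefree); in general we only ask that the reduction at the `Q` of even multiplicity is non-split.
There is no condition at the `Q` of odd multiplicity and no condition at `∞`, where `E_D` has good
reduction or reduction of type `I₀*`, according to the parity of the degree of `a D`.

Let `Sel E_D` be the 2-Selmer group: the pairs of classes `(u, w)` of `K* / K* ^ 2` such that, at every
place `v` of `K`, `(u, w)` is the pair of classes of `(x(P), x(P) - a D)` for a point `P` of `E_D` over the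
completion `K_v`.

Theorem. As `n → ∞`, the twists `D` of degree `n` in the family are a positive proportion of the
polynomials of degree `n`; the order of `Sel E_D` is `2 ^ (r + 2)` for some `r ≥ 0`, and the proportion of
the `D` with a given `r` converges to

`β r = 1 / 2 * ∏_{i ≥ 0} (1 - 2 ^ (-(2 i + 1))) * ∏_{j = 1}^{r} 2 / (2 ^ j - 1)`,

that is `0.2097..`, `0.4194..`, `0.2796..`, `0.0798..`, ...; the sum of the `β r` is `1`. The order of `Sel E_D` is
`4` if and only if the group `E_D(K)` is finite and the 2-primary part of the Tate-Shafarevich group of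
`E_D` over `K` is zero; so this happens for the proportion `0.2097..` of the `D`. Moreover `r` has the parity
of the number of the split places of `E_D` other than `∞`, for a given set `T` of places of odd
multiplicity the set of the split places of `E_D` is `T` with the limit proportion `2 ^ (-m)`, `m` the
number of the places of odd multiplicity, and among those `D` the proportion with a given `r` of the
parity of `#T` converges to `2 β r`, whatever `T` is.

The theorem contains our `ExactSelmerLawOfTwists` (`T = ∅`, one parity of the degree, `D` monic) and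
`SelmerLawOfAllTwists` (one parity of the degree, `D` monic), now in `Pool/Agent/V8H26/Old`. For the other
parity the reduction at `∞` is good: the constants enter the Selmer group and the degrees of its
elements are even, so the random model is a symmetric form on the vectors of degree zero (`V8H26/YM`,
`V8H26/YB`). The symbols and the sieve are from the project `Pool/Agent/Y164/PS` (result
`PositiveProportionOfTwists`, lower bound `1 / 3` for `T = ∅`), the descent from `Pool/Agent/TH115/GD`.
-/

set_option autoImplicit false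
set_option linter.all false

namespace Pool.Agent.Results.MP_48b749_nt.SelmerLawOfEveryTwist

open Polynomial Filter Topology Pool.Agent.TH115.GD
open scoped Classical

/-- The polynomial `f` is not a square modulo `Q` (in particular it is not divisible by `Q`). -/
def NonSquareMod {k : Type} [Field k] (Q f : k[X]) : Prop := ∀ h : k[X], ¬ Q ∣ h ^ 2 - f

/-- The polynomial `f` is not a constant multiple of a square. -/
def NotConstSquare {k : Type} [Field k] (f : k[X]) : Prop := ∀ (c : k) (h : k[X]), f ≠ C c * h ^ 2

/-- The twist by `D`, prime to `a b (a - b)`, has non-split multiplicative reduction at the divisor `Q`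
of `a b (a - b)`. -/
def NonSplitAt {k : Type} [Field k] (a b D Q : k[X]) : Prop :=
  (Q ∣ a ∧ NonSquareMod Q (b * D)) ∨ (Q ∣ b * (a - b) ∧ NonSquareMod Q (a * D))

/-- The multiplicity of `Q` in `f` is even. -/
def EvenMult {k : Type} [Field k] (Q f : k[X]) : Prop :=
  ∃ m : ℕ, Q ^ (2 * m) ∣ f ∧ ¬ Q ^ (2 * m + 1) ∣ f

/-- The squarefree polynomials `D` of degree `n`, prime to `a b (a - b)`, such that the reduction
of `E_D` is non-split at the `Q` of even multiplicity in `a b (a - b)` (no further condition if there
are no such `Q`). -/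
def Twists {k : Type} [Field k] (a b : k[X]) (n : ℕ) : Set k[X] :=
  {D | D.natDegree = n ∧ Squarefree D ∧ IsCoprime D (a * b * (a - b)) ∧
    ∀ Q : k[X], Q.Monic → Irreducible Q → Q ∣ a * b * (a - b) → EvenMult Q (a * b * (a - b)) →
      NonSplitAt a b D Q}

/-- The monic irreducible divisors of `a b (a - b)` at which the reduction of `E_D` is split. -/
def splitPrimes {k : Type} [Field k] (a b D : k[X]) : Set k[X] :=
  {Q | Q.Monic ∧ Irreducible Q ∧ Q ∣ a * b * (a - b) ∧ ¬ NonSplitAt a b D Q}

/-- The curve `E_D : y ^ 2 = x (x - a D) (x - b D)` over `K = k(t)`. -/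
noncomputable def twist {k : Type} [Field k] (K : Type) [Field K] [Algebra k[X] K]
    (a b D : k[X]) : WeierstrassCurve K :=
  crv (algebraMap k[X] K (a * D)) (algebraMap k[X] K (b * D))

/-- The group `K* / K* ^ 2`. -/
abbrev ModSquares (K : Type) [Field K] : Type := Kˣ ⧸ (powMonoidHom 2 : Kˣ →* Kˣ).range

/-- `(u, w)` is the pair of classes modulo squares of `(x(P), x(P) - α)` for a point `P` over the
extension `L` of `K` of the curve `y ^ 2 = x (x - α) (x - β)`; `d0` and `d1` are representatives of
these classes (`1` at infinity, `α β` for `x(P)` at the point `(0, 0)`, `α (α - β)` for `x(P) - α` at the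
point `(α, 0)`). -/
def OfPoint {K : Type} [Field K] (L : Type) [Field L] [Algebra K L] (α β : K) (u w : K) : Prop :=
  ∃ (P : Pt (crv α β) L) (c₀ c₁ : L), c₀ ≠ 0 ∧ c₁ ≠ 0 ∧
    algebraMap K L u = c₀ ^ 2 * d0 (algebraMap K L α) (algebraMap K L β) P ∧
    algebraMap K L w = c₁ ^ 2 * d1 (algebraMap K L α) (algebraMap K L β) P

/-- The 2-Selmer group of the curve `y ^ 2 = x (x - α) (x - β)` over `K = k(t)`: the pairs of classes
which come from a point over the completion of `K` at every place of `K`, the places being the
maximal ideals of `k[t]` and the place `t = ∞`. -/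
def TwoSelmer (k : Type) {K : Type} [Field k] [Field K] [Algebra k[X] K] [IsFractionRing k[X] K]
    (α β : K) : Set (ModSquares K × ModSquares K) :=
  {c | ∃ u w : Kˣ, c = ((u : ModSquares K), (w : ModSquares K)) ∧
    (∀ v : IsDedekindDomain.HeightOneSpectrum k[X], OfPoint (Comp k[X] K v) α β u w) ∧
    OfPoint (CompInf k K) α β u w}

/-- The order of the 2-Selmer group of `E_D`. -/
noncomputable def selmerOrder (k : Type) [Field k] (K : Type) [Field K] [Algebra k[X] K]
    [IsFractionRing k[X] K] (a b D : k[X]) : ℕ :=
  (TwoSelmer k (algebraMap k[X] K (a * D)) (algebraMap k[X] K (b * D))).ncard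

/-- The limit law. -/
noncomputable def β (r : ℕ) : ℝ :=
  1 / 2 * (∏' i : ℕ, (1 - (1 / 2 : ℝ) ^ (2 * i + 1))) *
    ∏ j ∈ Finset.range r, 2 / ((2 : ℝ) ^ (j + 1) - 1)

theorem result (k : Type) [Field k] [Finite k] (h2 : (2 : k) ≠ 0) (hi : IsSquare (-1 : k))
    (K : Type) [Field K] [Algebra k[X] K] [IsFractionRing k[X] K] (a b : k[X]) (N : ℕ)
    (hco : IsCoprime a b) (ha : a.natDegree = N) (hb : b.natDegree = N)
    (hab : (a - b).natDegree = N) (h₁ : NotConstSquare (a * b))
    (h₂ : NotConstSquare (a * (a - b))) (h₃ : NotConstSquare (b * (a - b))) :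
    (∃ c : ℝ, 0 < c ∧ ∀ᶠ n : ℕ in atTop,
      c * (Nat.card k : ℝ) ^ n ≤ ((Twists a b n).ncard : ℝ)) ∧
    (∀ r : ℕ, Tendsto (fun n : ℕ =>
        (({D ∈ Twists a b n | selmerOrder k K a b D = 2 ^ (r + 2)}).ncard : ℝ) /
          ((Twists a b n).ncard : ℝ))
      atTop (𝓝 (β r))) ∧
    Tendsto (fun n : ℕ => (({D ∈ Twists a b n |
          Finite (Pt (twist K a b D) K) ∧ ShaTwo k (twist K a b D)}).ncard : ℝ) /
        ((Twists a b n).ncard : ℝ))
      atTop (𝓝 (β 0)) ∧
    (0.2097 < β 0 ∧ β 0 < 0.2098 ∧ HasSum β 1) ∧
    (∀ n : ℕ, 1 ≤ n → ∀ D ∈ Twists a b n,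
      (∃ r : ℕ, Even (r + (splitPrimes a b D).ncard) ∧ selmerOrder k K a b D = 2 ^ (r + 2)) ∧
      (selmerOrder k K a b D = 4 ↔
        Finite (Pt (twist K a b D) K) ∧ ShaTwo k (twist K a b D))) ∧
    ∀ T : Set k[X], (∀ Q ∈ T, Q.Monic ∧ Irreducible Q ∧ Q ∣ a * b * (a - b) ∧
        ¬ EvenMult Q (a * b * (a - b))) →
      Tendsto (fun n : ℕ => (({D ∈ Twists a b n | splitPrimes a b D = T}).ncard : ℝ) /
          ((Twists a b n).ncard : ℝ)) atTop
        (𝓝 (1 / 2 ^ ({Q : k[X] | Q.Monic ∧ Irreducible Q ∧ Q ∣ a * b * (a - b) ∧
          ¬ EvenMult Q (a * b * (a - b))}.ncard))) ∧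
      ∀ r : ℕ, Even (r + T.ncard) → Tendsto (fun n : ℕ =>
          (({D ∈ Twists a b n | splitPrimes a b D = T ∧
            selmerOrder k K a b D = 2 ^ (r + 2)}).ncard : ℝ) /
          (({D ∈ Twists a b n | splitPrimes a b D = T}).ncard : ℝ))
        atTop (𝓝 (2 * β r)) := by
  obtain ⟨m1, m2, m3, m4⟩ := Pool.Agent.V8H26.YB.finalA h2 hi K a b N hco ha hb hab h₁ h₂ h₃
  have e1 : ∀ r, Pool.Agent.V8H26.YA.ga r = β r := Pool.Agent.V8H26.YA.ga_prod
  have e2 : Pool.Agent.V8H26.YA.ga = β := funext e1
  rw [e2] at m2 m4
  have e3 : β 0 = Pool.Agent.V8H26.XL.cc / 2 := by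
    rw [← e1]
    show (1 : ℝ) * Pool.Agent.V8H26.XL.cc / 2 = Pool.Agent.V8H26.XL.cc / 2
    rw [one_mul]
  refine ⟨m1, m2, ?_, ⟨?_, ?_, ?_⟩, m3, m4⟩
  · refine (m2 0).congr' ?_
    filter_upwards [eventually_ge_atTop 1] with n hn
    have e4 : {D ∈ Twists a b n | selmerOrder k K a b D = 2 ^ (0 + 2)} =
        {D ∈ Twists a b n | Finite (Pt (twist K a b D) K) ∧ ShaTwo k (twist K a b D)} := by
      ext D
      constructor
      · rintro ⟨h1, h3⟩
        exact ⟨h1, (m3 n hn D h1).2.1 h3⟩
      · rintro ⟨h1, h3⟩
        exact ⟨h1, (m3 n hn D h1).2.2 h3⟩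
    exact congrArg (fun s : Set k[X] => (s.ncard : ℝ) / ((Twists a b n).ncard : ℝ)) e4
  · rw [e3]
    linarith [Pool.Agent.V8H26.XL.cc_num.1]
  · rw [e3]
    linarith [Pool.Agent.V8H26.XL.cc_num.2]
  · rw [← e2]
    exact Pool.Agent.V8H26.YA.ga_sum

end Pool.Agent.Results.MP_48b749_nt.SelmerLawOfEveryTwist
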