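import Pool.Agent.V8H26.ZC.Fin
import Pool.Agent.V8H26.YA.End

/-!
# The local-global complex for zero-cycles modulo 2 on all the quadratic twists over `k(t)` of a curve
# with full 2-torsion: the law of the kernel

Let `k` be a finite field of characteristic different from 2 in which `-1` is a square, `K = k(t)`, and
let `a`, `b` be coprime polynomials over `k` such that `a`, `b`, `a - b` have the same degree `N` and
none of `a b`, `a (a - b)`, `b (a - b)` is a constant multiple of a square. Let

`E_D : y ^ 2 = x (x - a D) (x - b D)`,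

and let `S_n` be the set of the monic squarefree `D` of degree `n`, prime to `F = a b (a - b)`, for which
`E_D` has non-split multiplicative reduction at the primes whose multiplicity in `F` is even. If all the
multiplicities in `F` are odd, these are all the monic squarefree `D` of degree `n` prime to `F`.

The group of zero-cycles on `E_D` over `K`, or over a completion `K_v`, modulo rational equivalence, is
`ℤ × E_D(K)` or `ℤ × E_D(K_v)` (degree and sum, Riemann-Roch). All classes of `Br(E_D)[2]` are of the form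

`(c, c') + (x, e) + (x - a D, f)`, `c, c', e, f` in `K*`.

Theorem. Consider the complex

`CH₀(E_D) / 2 → ∏ v, CH₀(E_D over K_v) / 2 → Hom(Br(E_D)[2], ℚ / ℤ)`   (all places `v` of `K`).

The `S_n` are a positive proportion of the monic polynomials of degree `n`. As `n → ∞` with `n + N` odd,
the order of the kernel of the second map is `2 ^ (r + 3)` with the limiting proportion

`β r = 1 / 2 * ∏_{i ≥ 0} (1 - 2 ^ (-(2 i + 1))) * ∏_{j = 1}^{r} 2 / (2 ^ j - 1)`, `r = 0, 1, 2, …`,

the sum of the `β r` is `1`, and `0.2097 < β 0 < 0.2098`. The number `r` has the parity of the number of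
the prime divisors of `F` at which `E_D` has split reduction. The `D` for which these split primes form a
given set `T` of primes of odd multiplicity have the limiting proportion `2 ^ (-m)`, `m` the number of the
primes of odd multiplicity, and among them the law is `2 β r`, for the `r` of the parity of `#T`. If the
order is `8`, the complex is exact; this is the case if and only if `E_D(K)` is finite and the 2-primary
part of the Tate-Shafarevich group of `E_D` is zero.

Proof. The classes of `x(P_v)` and `x(P_v) - a D` in `K_v* / K_v* ^ 2` of a family orthogonal to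
`Br(E_D)[2]` are those of two elements of `K*`: this is the duality between the idele classes modulo
squares and `K* / K* ^ 2`, which we prove with the quadratic reciprocity law (the local symbol `(u, e)`,
defined by the solubility of the conic, is the symplectic form of `K_v* / K_v* ^ 2 = F₂ ^ 2`). So the
kernel is `ℤ / 2` times the 2-Selmer group, and the law of its order is that of
`MP_48b749_nt.SelmerLawOfAllTwists`. The theorem contains our earlier `ZeroCyclesOnTwists` (now in
`Pool/Agent/V8H26/Old`), which is the case `T = ∅`.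
-/

set_option autoImplicit false
set_option linter.all false

namespace Pool.Agent.Results.MP_bd895b_nt.ZeroCyclesOnAllTwists

open Polynomial Filter Topology Pool.Agent.TH115.GD
open Pool.Agent.V8H26.ZC (Adelic BrauerClass Kernel Image)
open scoped Classical

/-- The polynomial `f` is not a square modulo `Q` (in particular it is not divisible by `Q`). -/
def NonSquareMod {k : Type} [Field k] (Q f : k[X]) : Prop := ∀ h : k[X], ¬ Q ∣ h ^ 2 - f

/-- The polynomial `f` is not a constant multiple of a square. -/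
def NotConstSquare {k : Type} [Field k] (f : k[X]) : Prop := ∀ (c : k) (h : k[X]), f ≠ C c * h ^ 2

/-- The twist by `D`, prime to `a b (a - b)`, has non-split multiplicative reduction at the divisor `Q`
of `a b (a - b)`. -/
def NonSplitAt {k : Type} [Field k] (a b D Q : k[X]) : Prop :=
  (Q ∣ a ∧ NonSquareMod Q (b * D)) ∨ (Q ∣ b * (a - b) ∧ NonSquareMod Q (a * D))

/-- The multiplicity of `Q` in `f` is even. -/
def EvenMult {k : Type} [Field k] (Q f : k[X]) : Prop :=
  ∃ m : ℕ, Q ^ (2 * m) ∣ f ∧ ¬ Q ^ (2 * m + 1) ∣ f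

/-- The monic squarefree polynomials `D` of degree `n`, prime to `a b (a - b)`, such that the reduction
of `E_D` is non-split at the `Q` of even multiplicity in `a b (a - b)` (no further condition if there
are no such `Q`). -/
def Twists {k : Type} [Field k] (a b : k[X]) (n : ℕ) : Set k[X] :=
  {D | D.Monic ∧ D.natDegree = n ∧ Squarefree D ∧ IsCoprime D (a * b * (a - b)) ∧
    ∀ Q : k[X], Q.Monic → Irreducible Q → Q ∣ a * b * (a - b) → EvenMult Q (a * b * (a - b)) →
      NonSplitAt a b D Q}

/-- The monic irreducible divisors of `a b (a - b)` at which the reduction of `E_D` is split. -/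
def splitPrimes {k : Type} [Field k] (a b D : k[X]) : Set k[X] :=
  {Q | Q.Monic ∧ Irreducible Q ∧ Q ∣ a * b * (a - b) ∧ ¬ NonSplitAt a b D Q}

/-- The kernel of `∏ v, CH₀(E over K_v) / 2 → Hom(Br(E)[2], ℚ / ℤ)` for the curve
`E : y ^ 2 = x (x - A) (x - B)`. -/
abbrev kernel {k : Type} [Field k] (K : Type) [Field K] [Algebra k[X] K] [IsFractionRing k[X] K]
    (A B : k[X]) := Kernel k (algebraMap k[X] K A) (algebraMap k[X] K B)

/-- The image of `CH₀(E) / 2 → ∏ v, CH₀(E over K_v) / 2`. -/
abbrev image {k : Type} [Field k] (K : Type) [Field K] [Algebra k[X] K] [IsFractionRing k[X] K]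
    (A B : k[X]) := Image k (algebraMap k[X] K A) (algebraMap k[X] K B)

/-- The limit law. -/
noncomputable def β (r : ℕ) : ℝ :=
  1 / 2 * (∏' i : ℕ, (1 - (1 / 2 : ℝ) ^ (2 * i + 1))) *
    ∏ j ∈ Finset.range r, 2 / ((2 : ℝ) ^ (j + 1) - 1)

theorem result (k : Type) [Field k] [Finite k] (h2 : (2 : k) ≠ 0) (hi : IsSquare (-1 : k))
    (K : Type) [Field K] [Algebra k[X] K] [IsFractionRing k[X] K] :
    (∀ A B : k[X], A ≠ 0 → B ≠ 0 → A ≠ B →
      (∀ (z : Adelic k (algebraMap k[X] K A) (algebraMap k[X] K B)) (T : BrauerClass K),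
        (z.support T).Finite) ∧
      image K A B ⊆ kernel K A B ∧
      (ShaTwo k (crv (algebraMap k[X] K A) (algebraMap k[X] K B)) →
        kernel K A B = image K A B)) ∧
    ∀ (a b : k[X]) (N : ℕ), IsCoprime a b → a.natDegree = N → b.natDegree = N →
      (a - b).natDegree = N → NotConstSquare (a * b) → NotConstSquare (a * (a - b)) →
      NotConstSquare (b * (a - b)) →
      (∃ c : ℝ, 0 < c ∧ ∀ᶠ n : ℕ in atTop,
        c * (Nat.card k : ℝ) ^ n ≤ ((Twists a b n).ncard : ℝ)) ∧
      (∀ r : ℕ, Tendsto (fun n : ℕ =>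
          (({D ∈ Twists a b n | (kernel K (a * D) (b * D)).ncard = 2 ^ (r + 3)}).ncard : ℝ) /
            ((Twists a b n).ncard : ℝ))
        (atTop ⊓ 𝓟 {n | Odd (n + N)}) (𝓝 (β r))) ∧
      (0.2097 < β 0 ∧ β 0 < 0.2098 ∧ HasSum β 1) ∧
      (∀ n : ℕ, 1 ≤ n → Odd (n + N) → ∀ D ∈ Twists a b n,
        (∃ r : ℕ, Even (r + (splitPrimes a b D).ncard) ∧
          (kernel K (a * D) (b * D)).ncard = 2 ^ (r + 3)) ∧
        ((kernel K (a * D) (b * D)).ncard = 8 ↔
          Finite (Pt (crv (algebraMap k[X] K (a * D)) (algebraMap k[X] K (b * D))) K) ∧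
          ShaTwo k (crv (algebraMap k[X] K (a * D)) (algebraMap k[X] K (b * D)))) ∧
        ((kernel K (a * D) (b * D)).ncard = 8 →
          kernel K (a * D) (b * D) = image K (a * D) (b * D))) ∧
      ∀ T : Set k[X], (∀ Q ∈ T, Q.Monic ∧ Irreducible Q ∧ Q ∣ a * b * (a - b) ∧
          ¬ EvenMult Q (a * b * (a - b))) →
        Tendsto (fun n : ℕ => (({D ∈ Twists a b n | splitPrimes a b D = T}).ncard : ℝ) /
            ((Twists a b n).ncard : ℝ)) atTop
          (𝓝 (1 / 2 ^ ({Q : k[X] | Q.Monic ∧ Irreducible Q ∧ Q ∣ a * b * (a - b) ∧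
            ¬ EvenMult Q (a * b * (a - b))}.ncard))) ∧
        ∀ r : ℕ, Even (r + T.ncard) → Tendsto (fun n : ℕ =>
            (({D ∈ Twists a b n | splitPrimes a b D = T ∧
              (kernel K (a * D) (b * D)).ncard = 2 ^ (r + 3)}).ncard : ℝ) /
            (({D ∈ Twists a b n | splitPrimes a b D = T}).ncard : ℝ))
          (atTop ⊓ 𝓟 {n | Odd (n + N)}) (𝓝 (2 * β r)) := by
  classical
  letI : Fintype k := Fintype.ofFinite k
  have hk : ringChar k ≠ 2 := by
    intro h
    apply h2
    have := ringChar.Nat.cast_ringChar (R := k)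
    rw [h] at this
    exact_mod_cast this
  refine ⟨fun A B hA hB hAB => ⟨fun z T => Pool.Agent.V8H26.ZC.fin_support hk hi hA hB hAB z T,
    Pool.Agent.V8H26.ZC.image_sub hk hi hA hB hAB,
    Pool.Agent.V8H26.ZC.exact_of_sha hk hi hA hB hAB⟩, ?_⟩
  intro a b N hco ha hb hab h₁ h₂ h₃
  obtain ⟨m1, m2, m3, m4⟩ := Pool.Agent.V8H26.YA.final h2 hi K a b N hco ha hb hab h₁ h₂ h₃
  have e1 : ∀ r, Pool.Agent.V8H26.YA.ga r = β r := Pool.Agent.V8H26.YA.ga_prod
  have e2 : Pool.Agent.V8H26.YA.ga = β := funext e1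
  rw [e2] at m2 m4
  have e3 : β 0 = Pool.Agent.V8H26.XL.cc / 2 := by
    rw [← e1]
    show (1 : ℝ) * Pool.Agent.V8H26.XL.cc / 2 = Pool.Agent.V8H26.XL.cc / 2
    rw [one_mul]
  have ha0 : a ≠ 0 := by
    rintro rfl
    exact h₁ 0 0 (by simp)
  have hb0 : b ≠ 0 := by
    rintro rfl
    exact h₁ 0 0 (by simp)
  have hab0 : a ≠ b := by
    rintro rfl
    exact h₂ 0 0 (by simp)
  have key : ∀ D : k[X], D ≠ 0 → (kernel K (a * D) (b * D)).ncard =
      2 * Pool.Agent.V8H26.XA.so k K a b D := fun D hD =>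
    Pool.Agent.V8H26.ZC.kernel_card hk hi (mul_ne_zero ha0 hD) (mul_ne_zero hb0 hD)
      fun h => hab0 (mul_right_cancel₀ hD h)
  have key2 : ∀ (D : k[X]) (r : ℕ), D ≠ 0 → ((kernel K (a * D) (b * D)).ncard = 2 ^ (r + 3) ↔
      Pool.Agent.V8H26.XA.so k K a b D = 2 ^ (r + 2)) := by
    intro D r hD
    rw [key D hD]
    have h5 : (2 : ℕ) ^ (r + 3) = 2 * 2 ^ (r + 2) := by rw [← pow_succ']
    omega
  have hset : ∀ (n r : ℕ), {D ∈ Twists a b n |
      (kernel K (a * D) (b * D)).ncard = 2 ^ (r + 3)} =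
      {D ∈ Twists a b n | Pool.Agent.V8H26.XA.so k K a b D = 2 ^ (r + 2)} := by
    intro n r
    ext D
    constructor
    · rintro ⟨h1, h3⟩
      exact ⟨h1, (key2 D r h1.1.ne_zero).1 h3⟩
    · rintro ⟨h1, h3⟩
      exact ⟨h1, (key2 D r h1.1.ne_zero).2 h3⟩
  have hset' : ∀ (n r : ℕ) (T : Set k[X]), {D ∈ Twists a b n | splitPrimes a b D = T ∧
      (kernel K (a * D) (b * D)).ncard = 2 ^ (r + 3)} =
      {D ∈ Twists a b n | splitPrimes a b D = T ∧
        Pool.Agent.V8H26.XA.so k K a b D = 2 ^ (r + 2)} := by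
    intro n r T
    ext D
    constructor
    · rintro ⟨h1, h3, h4⟩
      exact ⟨h1, h3, (key2 D r h1.1.ne_zero).1 h4⟩
    · rintro ⟨h1, h3, h4⟩
      exact ⟨h1, h3, (key2 D r h1.1.ne_zero).2 h4⟩
  refine ⟨m1, fun r => ?_, ⟨?_, ?_, ?_⟩, ?_, fun T hT => ⟨(m4 T hT).1, fun r hr => ?_⟩⟩
  · simp only [hset]
    exact m2 r
  · rw [e3]
    linarith [Pool.Agent.V8H26.XL.cc_num.1]
  · rw [e3]
    linarith [Pool.Agent.V8H26.XL.cc_num.2]
  · rw [← e2]
    exact Pool.Agent.V8H26.YA.ga_sum
  · intro n hn ho D hD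
    have hD0 : D ≠ 0 := hD.1.ne_zero
    obtain ⟨⟨r, hr, hd⟩, h8⟩ := m3 n hn ho D hD
    have h9 : (kernel K (a * D) (b * D)).ncard = 8 ↔
        Finite (Pt (crv (algebraMap k[X] K (a * D)) (algebraMap k[X] K (b * D))) K) ∧
        ShaTwo k (crv (algebraMap k[X] K (a * D)) (algebraMap k[X] K (b * D))) := by
      rw [← h8, key D hD0]
      omega
    refine ⟨⟨r, hr, (key2 D r hD0).2 hd⟩, h9, fun h => ?_⟩
    exact Pool.Agent.V8H26.ZC.exact_of_sha hk hi (mul_ne_zero ha0 hD0) (mul_ne_zero hb0 hD0)
      (fun h => hab0 (mul_right_cancel₀ hD0 h)) (h9.1 h).2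
  · simp only [hset']
    exact (m4 T hT).2 r hr

end Pool.Agent.Results.MP_bd895b_nt.ZeroCyclesOnAllTwists
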